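import Pool.Agent.Q129.Stn.Zero

/-!
# Steiner systems `S(n,q,2)`: all block sizes at once, for almost all orders

For almost every order `n` the divisibility condition (D) decides the existence of `S(n,q,2)` for
all block sizes `q` simultaneously; the number of exceptional orders up to `N` lies between
`√N / 8` and `10^9 N (log log N)^2 / log N`.  The number of nontrivial block sizes
of a random order has an explicit mean and a limiting distribution.
-/

set_option autoImplicit false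

namespace Pool.Agent.Results.MP_409a13_co.AlmostAllOrders

open Filter Topology

/-- A Steiner system `S(n,q,r)` exists (on the point set `Fin n`). -/
def SteinerExists (n q r : ℕ) : Prop :=
  ∃ B : Finset (Finset (Fin n)), (∀ b ∈ B, b.card = q) ∧
    ∀ T : Finset (Fin n), T.card = r → ∃! b, b ∈ B ∧ T ⊆ b

/-- The divisibility condition (D) for `(n,q,r)`. -/
def ConditionD (n q r : ℕ) : Prop := ∀ i < r, (q - i).choose (r - i) ∣ (n - i).choose (r - i)

/-- The orders `n ≤ N` for which (D) does not decide all block sizes `2 ≤ q ≤ n`. -/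
def exceptionalOrders (N : ℕ) : Set ℕ :=
  {n | 1 ≤ n ∧ n ≤ N ∧ ∃ q, 2 ≤ q ∧ q ≤ n ∧ ConditionD n q 2 ∧ ¬ SteinerExists n q 2}

/-- The number of nontrivial block sizes `q` (with `2 < q < n`) for which `S(n,q,2)` exists. -/
noncomputable def blockSizes (n : ℕ) : ℕ := {q : ℕ | 2 < q ∧ q < n ∧ SteinerExists n q 2}.ncard

theorem result :
    (∀ N : ℕ, 21 ≤ N →
      Real.sqrt N / 8 ≤ (exceptionalOrders N).ncard ∧
      ((exceptionalOrders N).ncard : ℝ) ≤
        10 ^ 9 * (N * Real.log (Real.log N) ^ 2 / Real.log N)) ∧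
    (∃ μ : ℝ,
      HasSum (fun q : ℕ => if 3 ≤ q then (2 : ℝ) ^ q.primeFactors.card / ((q : ℝ) * (q - 1))
        else 0) μ ∧
      Tendsto (fun N : ℕ => (∑ n ∈ Finset.Icc 1 N, (blockSizes n : ℝ)) / N) atTop (𝓝 μ)) ∧
    (∃ p : ℕ → ℝ,
      (∀ k, Tendsto (fun N : ℕ => (({n : ℕ | 1 ≤ n ∧ n ≤ N ∧ blockSizes n = k}.ncard : ℕ) : ℝ) / N)
        atTop (𝓝 (p k))) ∧
      HasSum p 1 ∧ 1 / 40 ≤ p 0 ∧ p 0 ≤ 2 / 3) := by
  classical
  refine ⟨fun N hN => ?_, ?_, ?_⟩
  · have hfin : (exceptionalOrders N).Finite :=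
      (Set.finite_Icc 1 N).subset fun n hn => ⟨hn.1, hn.2.1⟩
    have hE : ∀ n, n ∈ hfin.toFinset ↔ (1 ≤ n ∧ n ≤ N) ∧ Q129.Stn.Exceptional n := by
      intro n
      rw [Set.Finite.mem_toFinset]
      constructor
      · rintro ⟨h1, h2, h3⟩; exact ⟨⟨h1, h2⟩, h3⟩
      · rintro ⟨⟨h1, h2⟩, h3⟩; exact ⟨h1, h2, h3⟩
    have h1 := Q129.Stn.lower_bound N hN hfin.toFinset hE
    have h2 := Q129.Stn.upper_bound N hN hfin.toFinset hE
    rw [← Set.ncard_eq_toFinset_card (exceptionalOrders N) hfin] at h1 h2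
    exact ⟨h1, h2⟩
  · obtain ⟨μ, hμ⟩ := Q129.Stn.dens_summable
    exact ⟨μ, hμ, Q129.Stn.mean_sizes hμ⟩
  · obtain ⟨μ, hμ⟩ := Q129.Stn.dens_summable
    obtain ⟨p, hp, hs⟩ := Q129.Stn.limit_law hμ
    obtain ⟨h1, h2⟩ := Q129.Stn.zero_bounds (hp 0)
    exact ⟨p, hp, hs, h1, h2⟩

end Pool.Agent.Results.MP_409a13_co.AlmostAllOrders
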