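import Pool.Agent.Q123.ST.Main

/-!
Problem MP_409a13_co (existence of Steiner systems), for Steiner systems whose blocks, possibly
together with the empty set and the set of all points, are closed under Boolean operations.
-/

set_option autoImplicit false

open Finset

namespace Pool.Agent.Results.MP_409a13_co.BooleanClosure

/-- `F` is the set of blocks of a Steiner system `S(n, q, r)` on the points `Fin n`. -/
def IsSteiner (n q r : ℕ) (F : Finset (Finset (Fin n))) : Prop :=
  (∀ B ∈ F, B.card = q) ∧ ∀ R : Finset (Fin n), R.card = r → ∃! B, B ∈ F ∧ R ⊆ B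

/-- The characteristic vector of a set of points. -/
def word {n : ℕ} (B : Finset (Fin n)) : Fin n → ZMod 2 := fun j => if j ∈ B then 1 else 0

/-- Boolean operations of arity `k`. -/
abbrev Op (k : ℕ) := (Fin k → ZMod 2) → ZMod 2

/-- The set of words `C` is closed under the operation `f`, applied coordinatewise. -/
def ClosedUnder {n k : ℕ} (f : Op k) (C : Finset (Fin n → ZMod 2)) : Prop :=
  ∀ w : Fin k → Fin n → ZMod 2, (∀ i, w i ∈ C) → (fun j => f (fun i => w i j)) ∈ C

/-- After adding some (or none) of the two sets `∅` and `univ` to the blocks, they are closed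
under all operations in `Φ`. -/
def Closed {n : ℕ} (Φ : ∀ k : ℕ, Set (Op k)) (F : Finset (Finset (Fin n))) : Prop :=
  ∃ E : Finset (Finset (Fin n)), E ⊆ {∅, univ} ∧ ∀ k, ∀ f ∈ Φ k, ClosedUnder f ((F ∪ E).image word)

/-- `f` is affine: a constant plus a sum of variables. -/
def IsAffine {k : ℕ} (f : Op k) : Prop :=
  ∃ (c : ZMod 2) (s : Finset (Fin k)), ∀ x, f x = c + ∑ i ∈ s, x i

/-- `f` is affine and depends on at least two variables. -/
def IsProperSum {k : ℕ} (f : Op k) : Prop :=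
  ∃ (c : ZMod 2) (s : Finset (Fin k)), 2 ≤ s.card ∧ ∀ x, f x = c + ∑ i ∈ s, x i

theorem result :
    ∀ (Φ : ∀ k : ℕ, Set (Op k)) (n q r : ℕ), 2 ≤ r → r < q → q < n →
    -- (1) an operation which is not affine: there is no such Steiner system
    ((∃ k, ∃ f ∈ Φ k, ¬ IsAffine f) →
      ¬ ∃ F : Finset (Finset (Fin n)), IsSteiner n q r F ∧ Closed Φ F) ∧
    -- (2) affine operations, one of them of at least two variables
    ((∀ k, ∀ f ∈ Φ k, IsAffine f) → (∃ k, ∃ f ∈ Φ k, IsProperSum f) →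
      ((∃ F : Finset (Finset (Fin n)), IsSteiner n q r F ∧ Closed Φ F) ↔
        (n = 8 ∧ q = 4 ∧ r = 3) ∨
          (n = 7 ∧ q = 3 ∧ r = 2 ∧ ∀ k, ∀ f ∈ Φ k, f (fun _ => 1) = 1))) ∧
    -- (3) the negation of a variable
    ((∃ k, ∃ f ∈ Φ k, ∃ i, ∀ x, f x = 1 + x i) →
      (∃ F : Finset (Finset (Fin n)), IsSteiner n q r F ∧ Closed Φ F) →
        q = r + 1 ∧ n = 2 * r + 2 ∧ (r + 2).Prime) ∧
    -- (4) constants and variables: no condition
    ((∀ k, ∀ f ∈ Φ k, (∃ c, ∀ x, f x = c) ∨ ∃ i, ∀ x, f x = x i) →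
      ∀ F : Finset (Finset (Fin n)), Closed Φ F) := by
  intro Φ n q r hr hrq hqn
  refine ⟨?_, ?_, ?_, ?_⟩
  · rintro hΦ ⟨F, h, hC⟩
    exact Q123.ST.case_not_affine hΦ h hr hrq hqn hC
  · intro hΦ hΦ2
    exact Q123.ST.case_affine hΦ hΦ2 hr hrq hqn
  · rintro hΦ ⟨F, h, hC⟩
    exact Q123.ST.case_negation hΦ h hr hrq hqn hC
  · intro hΦ F
    exact Q123.ST.case_trivial hΦ F

end Pool.Agent.Results.MP_409a13_co.BooleanClosure
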