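import Pool.Agent.Q16.StD.Rate
import Pool.Agent.Q16.StD.Necess

/-!
# Steiner systems `S(n,q,r)`: a fixed strength `r ≥ 2`, all block sizes at once

For `k ≥ 1` let `δ k r` be the density of the orders `n` for which some block size `q` with
`r + k ≤ q < n` satisfies the divisibility condition (D) of strength `r`.  These densities exist,
`δ 1 r * log r` tends to `exp (-γ)`, `δ k r` has the order of magnitude `1 / (log r) ^ k`, and it is at
most `(12 + 4 log (k + 1)) / (k + 1)` for every strength.  They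
bound the proportion of the orders with a nontrivial system `S(n,q,r)`, `q ≥ r + k`, and when the
divisibility condition is eventually sufficient for each block size (Keevash's theorem) they are
equal to it: then (D) decides, for almost every `n`, all block sizes simultaneously.
-/

set_option autoImplicit false

namespace Pool.Agent.Results.MP_409a13_co.EveryStrength

open Filter Topology

/-- A Steiner system `S(n,q,r)` exists (on the point set `Fin n`). -/
def SteinerExists (n q r : ℕ) : Prop :=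
  ∃ B : Finset (Finset (Fin n)), (∀ b ∈ B, b.card = q) ∧
    ∀ T : Finset (Fin n), T.card = r → ∃! b, b ∈ B ∧ T ⊆ b

/-- The divisibility condition (D) for `(n,q,r)`. -/
def ConditionD (n q r : ℕ) : Prop := ∀ i < r, (q - i).choose (r - i) ∣ (n - i).choose (r - i)

/-- The orders `n < X` for which some `q` with `r + k ≤ q < n` satisfies (D). -/
def admissible (r k X : ℕ) : Set ℕ :=
  {n | n < X ∧ ∃ q, r + k ≤ q ∧ q < n ∧ ConditionD n q r}

/-- The orders `n < X` for which `S(n,q,r)` exists for some `q` with `r + k ≤ q < n`. -/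
def realised (r k X : ℕ) : Set ℕ :=
  {n | n < X ∧ ∃ q, r + k ≤ q ∧ q < n ∧ SteinerExists n q r}

/-- The orders `n < X` for which (D) does not decide all block sizes `r < q < n`. -/
def undecided (r X : ℕ) : Set ℕ :=
  {n | n < X ∧ ∃ q, r < q ∧ q < n ∧ ConditionD n q r ∧ ¬ SteinerExists n q r}

/-- For each block size the condition (D) suffices for all large orders (Keevash's theorem). -/
def Threshold (r : ℕ) : Prop :=
  ∀ q, r < q → ∃ n₀, ∀ n, n₀ ≤ n → ConditionD n q r → SteinerExists n q r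

section

open Pool.Agent.Q16.StD Pool.Agent.Q129.Stn

theorem fin_adm (r k X : ℕ) : (admissible r k X).Finite :=
  (Set.finite_Iio X).subset fun _ hn => hn.1

theorem fin_real (r k X : ℕ) : (realised r k X).Finite :=
  (Set.finite_Iio X).subset fun _ hn => hn.1

theorem fin_und (r X : ℕ) : (undecided r X).Finite :=
  (Set.finite_Iio X).subset fun _ hn => hn.1

theorem condition_of_steiner {n q r : ℕ} (hrn : r ≤ n) (h : SteinerExists n q r) :
    ConditionD n q r := by
  obtain ⟨B, hB, hS⟩ := h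
  exact fun i hi => necessary B hB hS hrn hi

open Classical in
theorem adm_count (r k X : ℕ) : (admissible r k (X + r)).ncard = Nat.count (BB r k) X := by
  rw [Nat.count_eq_card_filter_range, ← Set.ncard_coe_finset]
  symm
  refine Set.ncard_congr (fun N _ => N + r) ?_ ?_ ?_
  · intro N hN
    simp only [Finset.coe_filter, Finset.mem_range, Set.mem_ofPred_eq] at hN
    obtain ⟨hNX, K, hkK, hKN, hD⟩ := hN
    exact ⟨by omega, K + r, by omega, by omega, (conditionD_iff r K N).2 hD⟩
  · intro N M _ _ h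
    omega
  · rintro n ⟨hnX, q, hq1, hq2, hD⟩
    refine ⟨n - r, ?_, by omega⟩
    simp only [Finset.coe_filter, Finset.mem_range, Set.mem_ofPred_eq]
    refine ⟨by omega, q - r, by omega, by omega, ?_⟩
    rw [← conditionD_iff, show q - r + r = q by omega, show n - r + r = n by omega]
    exact hD

theorem adm_tendsto {r k : ℕ} {δ : ℝ} (h : IsDelta r k δ) :
    Tendsto (fun X : ℕ => ((admissible r k X).ncard : ℝ) / X) atTop (𝓝 δ) := by
  classical
  rw [← tendsto_add_atTop_iff_nat r]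
  have h1 : Tendsto (fun X : ℕ => (X : ℝ) / ((X + r : ℕ) : ℝ)) atTop (𝓝 1) := by
    have := tendsto_natCast_div_add_atTop (𝕜 := ℝ) (r : ℝ)
    refine this.congr fun X => by push_cast; rfl
  have h2 := h.1.mul h1
  rw [mul_one] at h2
  refine h2.congr' ?_
  filter_upwards [eventually_ge_atTop 1] with X hX
  have hX0 : (0 : ℝ) < X := by exact_mod_cast hX
  rw [adm_count]
  field_simp

theorem real_le_adm (r k X : ℕ) : (realised r k X).ncard ≤ (admissible r k X).ncard := by
  refine Set.ncard_le_ncard ?_ (fin_adm r k X)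
  rintro n ⟨h1, q, h2, h3, h4⟩
  exact ⟨h1, q, h2, h3, condition_of_steiner (by omega) h4⟩

theorem adm_le_real {r k : ℕ} (hk : 1 ≤ k) (X : ℕ) :
    (admissible r k X).ncard ≤ (realised r k X).ncard + (undecided r X).ncard := by
  refine le_trans (Set.ncard_le_ncard ?_ ((fin_real r k X).union (fin_und r X)))
    (Set.ncard_union_le _ _)
  rintro n ⟨h1, q, h2, h3, h4⟩
  by_cases h : SteinerExists n q r
  · exact Or.inl ⟨h1, q, h2, h3, h⟩
  · exact Or.inr ⟨h1, q, by omega, h3, h4, h⟩

theorem undecided_le {r : ℕ} (hr : 2 ≤ r) (Q thr X : ℕ)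
    (hthr : ∀ q, r < q → q ≤ Q + r → ∀ n, thr ≤ n → ConditionD n q r → SteinerExists n q r) :
    (undecided r X).ncard ≤ thr + (pairsAbove (Q + 2) (X + 2)).card := by
  have hsub : undecided r X ⊆ ((Finset.range thr ∪
      (pairsAbove (Q + 2) (X + 2)).image (fun p => p.1 + r - 2) : Finset ℕ) : Set ℕ) := by
    rintro n ⟨hnX, q, hq1, hq2, hD, hS⟩
    rw [Finset.coe_union, Set.mem_union, Finset.mem_coe, Finset.mem_coe, Finset.mem_range,
      Finset.mem_image]
    by_cases hqQ : q ≤ Q + r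
    · left
      by_contra hn
      exact hS (hthr q hq1 hqQ n (by omega) hD)
    · right
      refine ⟨(n - r + 2, q - r + 2), ?_, by simp only; omega⟩
      simp only [pairsAbove, Finset.mem_filter, Finset.mem_product, Finset.mem_Icc]
      refine ⟨⟨⟨by omega, by omega⟩, by omega, by omega⟩, by omega, ?_⟩
      rw [← divisible_iff (by omega) (by omega)]
      intro i hi
      have h := hD (r - 2 + i) (by omega)
      rwa [show q - (r - 2 + i) = q - r + 2 - i by omega,
        show r - (r - 2 + i) = 2 - i by omega, show n - (r - 2 + i) = n - r + 2 - i by omega] at h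
  refine (Set.ncard_le_ncard hsub (Finset.finite_toSet _)).trans ?_
  rw [Set.ncard_coe_finset]
  refine (Finset.card_union_le _ _).trans ?_
  rw [Finset.card_range]
  exact Nat.add_le_add_left Finset.card_image_le _

theorem undecided_tendsto {r : ℕ} (hr : 2 ≤ r) (hT : Threshold r) :
    Tendsto (fun X : ℕ => ((undecided r X).ncard : ℝ) / X) atTop (𝓝 0) := by
  rw [Metric.tendsto_atTop]
  intro ε hε
  have he := eta_tendsto.comp (tendsto_add_atTop_nat 2)
  obtain ⟨Q, hQ⟩ := ((tendsto_order.1 he).2 (ε / 4) (by linarith)).exists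
  simp only [Function.comp_apply] at hQ
  obtain ⟨thr, hthr⟩ : ∃ thr : ℕ, ∀ q, r < q → q ≤ Q + r → ∀ n, thr ≤ n →
      ConditionD n q r → SteinerExists n q r := by
    choose f hf using hT
    refine ⟨∑ q ∈ (Finset.Icc (r + 1) (Q + r)).attach, f q.1 (by
      have := (Finset.mem_Icc.1 q.2).1; omega), fun q h1 h2 n hn hD => ?_⟩
    refine hf q h1 n (le_trans ?_ hn) hD
    have hmem : q ∈ Finset.Icc (r + 1) (Q + r) := Finset.mem_Icc.2 ⟨by omega, h2⟩
    exact Finset.single_le_sum (f := fun q : {x // x ∈ Finset.Icc (r + 1) (Q + r)} =>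
      f q.1 (by have := (Finset.mem_Icc.1 q.2).1; omega)) (fun _ _ => Nat.zero_le _)
      (Finset.mem_attach _ ⟨q, hmem⟩)
  have h1 : Tendsto (fun X : ℕ => ((thr : ℝ) + 2 * eta (Q + 2)) / (X : ℝ) + 3 * rem (X + 2))
      atTop (𝓝 (0 + 3 * 0)) :=
    (tendsto_const_div_atTop_nhds_zero_nat _).add
      ((rem_tendsto.comp (tendsto_add_atTop_nat 2)).const_mul 3)
  rw [mul_zero, add_zero] at h1
  obtain ⟨N, hN⟩ := eventually_atTop.1 ((tendsto_order.1 h1).2 (ε / 4) (by linarith))
  refine ⟨max 1 N, fun X hX => ?_⟩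
  have hX1 : 1 ≤ X := le_trans (le_max_left _ _) hX
  have hX0 : (1 : ℝ) ≤ X := by exact_mod_cast hX1
  have h2 := undecided_le hr Q thr X hthr
  have h3 := count_pairs (Q + 2) (X + 2) (by omega) (by omega)
  have h4 := hN X (le_trans (le_max_right _ _) hX)
  have h5 : ((X + 2 : ℕ) : ℝ) * rem (X + 2) =
      10 * Real.sqrt (X + 2 : ℕ) * (2 + Real.log (X + 2 : ℕ)) ^ 2 := by
    unfold rem
    rw [mul_div_cancel₀]
    positivity
  have h6 : ((X + 2 : ℕ) : ℝ) * rem (X + 2) ≤ X * (3 * rem (X + 2)) := by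
    have := rem_nonneg (X + 2)
    push_cast
    nlinarith
  have h7 : ((X + 2 : ℕ) : ℝ) * ((12 + 4 * Real.log (Q + 2 : ℕ)) / (Q + 2 : ℕ)) =
      X * eta (Q + 2) + 2 * eta (Q + 2) := by
    unfold eta
    push_cast; ring
  rw [h7, ← h5] at h3
  have h8 : ((undecided r X).ncard : ℝ) ≤ thr + (pairsAbove (Q + 2) (X + 2)).card := by
    exact_mod_cast h2
  have h9 : ((undecided r X).ncard : ℝ) / X ≤
      (((thr : ℝ) + 2 * eta (Q + 2)) / (X : ℝ) + 3 * rem (X + 2)) + eta (Q + 2) := by
    rw [div_le_iff₀ (by linarith)]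
    have e : ((((thr : ℝ) + 2 * eta (Q + 2)) / (X : ℝ) + 3 * rem (X + 2)) + eta (Q + 2)) * X =
        thr + 2 * eta (Q + 2) + X * (3 * rem (X + 2)) + X * eta (Q + 2) := by
      field_simp
    rw [e]
    linarith
  have h10 : 0 ≤ ((undecided r X).ncard : ℝ) / X := by positivity
  rw [Real.dist_eq, sub_zero, abs_of_nonneg h10]
  linarith

theorem adm_pairs {r : ℕ} (hr : 2 ≤ r) (Q X : ℕ) :
    (admissible r (Q + 1) X).ncard ≤ (pairsAbove (Q + 2) (X + 2)).card := by
  have hsub : admissible r (Q + 1) X ⊆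
      (((pairsAbove (Q + 2) (X + 2)).image (fun p => p.1 + r - 2) : Finset ℕ) : Set ℕ) := by
    rintro n ⟨hnX, q, hq1, hq2, hD⟩
    rw [Finset.mem_coe, Finset.mem_image]
    refine ⟨(n - r + 2, q - r + 2), ?_, by simp only; omega⟩
    simp only [pairsAbove, Finset.mem_filter, Finset.mem_product, Finset.mem_Icc]
    refine ⟨⟨⟨by omega, by omega⟩, by omega, by omega⟩, by omega, ?_⟩
    rw [← divisible_iff (by omega) (by omega)]
    intro i hi
    have h := hD (r - 2 + i) (by omega)
    rwa [show q - (r - 2 + i) = q - r + 2 - i by omega,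
      show r - (r - 2 + i) = 2 - i by omega, show n - (r - 2 + i) = n - r + 2 - i by omega] at h
  refine (Set.ncard_le_ncard hsub (Finset.finite_toSet _)).trans ?_
  rw [Set.ncard_coe_finset]
  exact Finset.card_image_le

theorem delta_le {r : ℕ} (hr : 2 ≤ r) (Q : ℕ) {δ : ℝ}
    (h : Tendsto (fun X : ℕ => ((admissible r (Q + 1) X).ncard : ℝ) / X) atTop (𝓝 δ)) :
    δ ≤ eta (Q + 2) := by
  have h1 : Tendsto (fun X : ℕ => (2 * eta (Q + 2) / (X : ℝ) + 3 * rem (X + 2)) + eta (Q + 2))
      atTop (𝓝 ((0 + 3 * 0) + eta (Q + 2))) :=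
    ((tendsto_const_div_atTop_nhds_zero_nat _).add
      ((rem_tendsto.comp (tendsto_add_atTop_nat 2)).const_mul 3)).add_const _
  rw [mul_zero, add_zero, zero_add] at h1
  refine le_of_tendsto_of_tendsto h h1 ?_
  filter_upwards [eventually_ge_atTop 1] with X hX
  have hX0 : (1 : ℝ) ≤ X := by exact_mod_cast hX
  have h2 := adm_pairs hr Q X
  have h3 := count_pairs (Q + 2) (X + 2) (by omega) (by omega)
  have h5 : ((X + 2 : ℕ) : ℝ) * rem (X + 2) =
      10 * Real.sqrt (X + 2 : ℕ) * (2 + Real.log (X + 2 : ℕ)) ^ 2 := by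
    unfold rem
    rw [mul_div_cancel₀]
    positivity
  have h6 : ((X + 2 : ℕ) : ℝ) * rem (X + 2) ≤ X * (3 * rem (X + 2)) := by
    have := rem_nonneg (X + 2)
    push_cast
    nlinarith
  have h7 : ((X + 2 : ℕ) : ℝ) * ((12 + 4 * Real.log (Q + 2 : ℕ)) / (Q + 2 : ℕ)) =
      X * eta (Q + 2) + 2 * eta (Q + 2) := by
    unfold eta
    push_cast; ring
  rw [h7, ← h5] at h3
  have h8 : ((admissible r (Q + 1) X).ncard : ℝ) ≤ (pairsAbove (Q + 2) (X + 2)).card := by
    exact_mod_cast h2
  rw [div_le_iff₀ (by linarith)]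
  have e : ((2 * eta (Q + 2) / (X : ℝ) + 3 * rem (X + 2)) + eta (Q + 2)) * X =
      2 * eta (Q + 2) + X * (3 * rem (X + 2)) + X * eta (Q + 2) := by
    field_simp
  rw [e]
  linarith

end

theorem result : ∃ δ : ℕ → ℕ → ℝ,
    (∀ k, 1 ≤ k → ∀ r, 2 ≤ r →
      Tendsto (fun X : ℕ => ((admissible r k X).ncard : ℝ) / X) atTop (𝓝 (δ k r))) ∧
    (∀ k, 1 ≤ k → ∀ r, 2 ≤ r → ∀ ε : ℝ, 0 < ε →
      ∀ᶠ X : ℕ in atTop, ((realised r k X).ncard : ℝ) ≤ (δ k r + ε) * X) ∧
    Tendsto (fun r : ℕ => δ 1 r * Real.log r) atTop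
      (𝓝 (Real.exp (-Real.eulerMascheroniConstant))) ∧
    (∀ k, 1 ≤ k → ∃ c C : ℝ, 0 < c ∧ ∀ r : ℕ, 2 ≤ r →
      c / Real.log r ^ k ≤ δ k r ∧ δ k r ≤ C / Real.log r ^ k) ∧
    (∀ k, 1 ≤ k → ∀ r, 2 ≤ r → δ k r ≤ (12 + 4 * Real.log (k + 1)) / (k + 1)) ∧
    (∀ r, 2 ≤ r → Threshold r →
      (∀ k, 1 ≤ k →
        Tendsto (fun X : ℕ => ((realised r k X).ncard : ℝ) / X) atTop (𝓝 (δ k r))) ∧
      Tendsto (fun X : ℕ => ((undecided r X).ncard : ℝ) / X) atTop (𝓝 0)) := by
  classical
  have hex : ∀ k r : ℕ, ∃ δ : ℝ, 2 ≤ r → Pool.Agent.Q16.StD.IsDelta r k δ := by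
    intro k r
    by_cases hr : 2 ≤ r
    · obtain ⟨δ, h1, h2⟩ := Pool.Agent.Q16.StD.exists_delta hr k
      exact ⟨δ, fun _ => ⟨h1, h2⟩⟩
    · exact ⟨0, fun h => absurd h hr⟩
  choose δ hδ using hex
  have hadm : ∀ k r, 2 ≤ r →
      Tendsto (fun X : ℕ => ((admissible r k X).ncard : ℝ) / X) atTop (𝓝 (δ k r)) :=
    fun k r hr => adm_tendsto (hδ k r hr)
  refine ⟨δ, fun k _ r hr => hadm k r hr, ?_, ?_, ?_, ?_, ?_⟩
  · intro k _ r hr ε hε
    filter_upwards [(tendsto_order.1 (hadm k r hr)).2 (δ k r + ε) (by linarith),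
      eventually_ge_atTop 1] with X h1 hX
    have hX0 : (0 : ℝ) < X := by exact_mod_cast hX
    rw [div_lt_iff₀ hX0] at h1
    have h2 : ((realised r k X).ncard : ℝ) ≤ (admissible r k X).ncard := by
      exact_mod_cast real_le_adm r k X
    linarith
  · exact Pool.Agent.Q16.StD.delta_one_lim (δ 1) (fun r hr => hδ 1 r hr)
  · intro k hk
    obtain ⟨c, C, hc, h⟩ := Pool.Agent.Q16.StD.delta_order hk
    exact ⟨c, C, hc, fun r hr => h r hr _ (hδ k r hr)⟩
  · intro k hk r hr
    obtain ⟨Q, rfl⟩ : ∃ Q, k = Q + 1 := ⟨k - 1, by omega⟩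
    have h := delta_le hr Q (hadm (Q + 1) r hr)
    unfold Pool.Agent.Q16.StD.eta at h
    have e1 : (((Q + 1 : ℕ) : ℝ) + 1) = ((Q + 2 : ℕ) : ℝ) := by push_cast; ring
    rw [e1]
    exact h
  · intro r hr hT
    have hu := undecided_tendsto hr hT
    refine ⟨fun k hk => ?_, hu⟩
    have h1 := (hadm k r hr).sub hu
    rw [sub_zero] at h1
    refine tendsto_of_tendsto_of_tendsto_of_le_of_le h1 (hadm k r hr) ?_ ?_
    · intro X
      simp only
      rw [← sub_div]
      refine div_le_div_of_nonneg_right ?_ (by positivity)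
      have : ((admissible r k X).ncard : ℝ) ≤ (realised r k X).ncard + (undecided r X).ncard := by
        exact_mod_cast adm_le_real hk X
      linarith
    · intro X
      have h3 : ((realised r k X).ncard : ℝ) ≤ (admissible r k X).ncard := by
        exact_mod_cast real_le_adm r k X
      exact div_le_div_of_nonneg_right h3 (by positivity)

end Pool.Agent.Results.MP_409a13_co.EveryStrength
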