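import Pool.Agent.Q118.SteinerSum5

/-!
Steiner systems whose blocks are all `q`-subsets with prescribed label sums in a finite abelian
group: classification for label sets of size more than (about) half of the group.
-/

namespace Pool.Agent.Results.MP_409a13_co.SumSteiner

open Finset Pool.Agent.Q118.SteinerSum

theorem card_pow {G : Type*} [AddCommGroup G] [Fintype G] (p : ℕ) [Fact p.Prime]
    (h : ∀ x : G, p • x = 0) : ∃ m : ℕ, Fintype.card G = p ^ m := by
  have h1 : IsPGroup p (Multiplicative G) := by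
    intro g
    refine ⟨1, ?_⟩
    rw [pow_one]
    exact h (Multiplicative.toAdd g)
  obtain ⟨n, hn⟩ := IsPGroup.iff_card.1 h1
  refine ⟨n, ?_⟩
  rw [← hn, ← Nat.card_eq_fintype_card]
  rfl

/-- Let `f` label the points of a finite set `X` by elements of a finite abelian group `G`, let
`S ⊆ G`, and suppose `2 ≤ r < q < |X|` and either `|X| ≥ |G|` or `2|X| ≥ |G| + 2q`.
The `q`-subsets of `X` with label sum in `S` form a Steiner system `S(|X|, q, r)` exactly in three
cases, and then `(|X|, q, r)` is `(3^m, 3, 2)`, `(2^m - 1, 3, 2)` or `(2^m, 4, 3)`. -/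
theorem result (X G : Type*) [Fintype X] [AddCommGroup G] [Fintype G]
    (f : X → G) (S : Set G) (q r : ℕ) (hr : 2 ≤ r) (hrq : r < q) (hq : q < Fintype.card X)
    (hd : Fintype.card G ≤ Fintype.card X ∨ Fintype.card G + 2 * q ≤ 2 * Fintype.card X) :
    ((∀ R : Finset X, R.card = r →
        ∃! B : Finset X, (B.card = q ∧ ∑ x ∈ B, f x ∈ S) ∧ R ⊆ B) ↔
      (q = 3 ∧ r = 2 ∧ Function.Bijective f ∧ (∀ x : G, 3 • x = 0) ∧ S = {0}) ∨
      (q = 3 ∧ r = 2 ∧ Function.Injective f ∧ (∀ x : G, 2 • x = 0) ∧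
        ∃ s : G, S = {s} ∧ Set.range f = {s}ᶜ) ∨
      (q = 4 ∧ r = 3 ∧ Function.Bijective f ∧ (∀ x : G, 2 • x = 0) ∧ S = {0})) ∧
    ((∀ R : Finset X, R.card = r →
        ∃! B : Finset X, (B.card = q ∧ ∑ x ∈ B, f x ∈ S) ∧ R ⊆ B) →
      ∃ m : ℕ, (q = 3 ∧ r = 2 ∧ Fintype.card X = 3 ^ m) ∨
        (q = 3 ∧ r = 2 ∧ Fintype.card X = 2 ^ m - 1) ∨
        (q = 4 ∧ r = 3 ∧ Fintype.card X = 2 ^ m)) := by
  classical
  obtain ⟨S, rfl⟩ : ∃ S' : Finset G, S = (S' : Set G) := ⟨S.toFinite.toFinset, (Set.Finite.coe_toFinset _).symm⟩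
  have hst : (∀ R : Finset X, R.card = r →
      ∃! B : Finset X, (B.card = q ∧ ∑ x ∈ B, f x ∈ (S : Set G)) ∧ R ⊆ B) ↔
      IsSteiner q r (labelBlocks f q S) := by
    constructor
    · intro h
      refine ⟨fun B hB => (mem_labelBlocks.1 hB).1, fun R hR => ?_⟩
      obtain ⟨B, ⟨⟨h1, h2⟩, h3⟩, hu⟩ := h R hR
      refine ⟨B, ⟨mem_labelBlocks.2 ⟨h1, Finset.mem_coe.1 h2⟩, h3⟩, ?_⟩
      rintro C ⟨hC, hRC⟩
      have := mem_labelBlocks.1 hC
      exact hu C ⟨⟨this.1, Finset.mem_coe.2 this.2⟩, hRC⟩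
    · rintro ⟨-, h⟩ R hR
      obtain ⟨B, ⟨h1, h3⟩, hu⟩ := h R hR
      have h1' := mem_labelBlocks.1 h1
      refine ⟨B, ⟨⟨h1'.1, Finset.mem_coe.2 h1'.2⟩, h3⟩, ?_⟩
      rintro C ⟨⟨hC1, hC2⟩, hRC⟩
      exact hu C ⟨mem_labelBlocks.2 ⟨hC1, Finset.mem_coe.1 hC2⟩, hRC⟩
  have hS0 : ∀ s : G, ((S : Set G) = {s}) ↔ S = {s} := by
    intro s
    rw [← Finset.coe_singleton, Finset.coe_inj]
  have main : IsSteiner q r (labelBlocks f q S) ↔
      (q = 3 ∧ r = 2 ∧ Function.Bijective f ∧ (∀ x : G, 3 • x = 0) ∧ (S : Set G) = {0}) ∨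
      (q = 3 ∧ r = 2 ∧ Function.Injective f ∧ (∀ x : G, 2 • x = 0) ∧
        ∃ s : G, (S : Set G) = {s} ∧ Set.range f = {s}ᶜ) ∨
      (q = 4 ∧ r = 3 ∧ Function.Bijective f ∧ (∀ x : G, 2 • x = 0) ∧ (S : Set G) = {0}) := by
    have e2 : (∀ x : G, 2 • x = 0) ↔ (∀ x : G, x + x = 0) := by
      constructor
      · intro h x; rw [← two_nsmul]; exact h x
      · intro h x; rw [two_nsmul]; exact h x
    have e3 : (∀ x : G, 3 • x = 0) ↔ (∀ x : G, x + x + x = 0) := by
      constructor
      · intro h x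
        have := h x
        rwa [show 3 = 2 + 1 from rfl, add_nsmul, two_nsmul, one_nsmul] at this
      · intro h x
        rw [show 3 = 2 + 1 from rfl, add_nsmul, two_nsmul, one_nsmul]
        exact h x
    have esurj : Function.Surjective f ↔ (univ.image f : Finset G) = univ := by
      constructor
      · intro h
        exact Finset.eq_univ_of_forall (fun g => by
          obtain ⟨x, rfl⟩ := h g
          exact Finset.mem_image_of_mem _ (mem_univ _))
      · intro h g
        have : g ∈ (univ.image f : Finset G) := by rw [h]; exact mem_univ _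
        obtain ⟨x, -, hx⟩ := Finset.mem_image.1 this
        exact ⟨x, hx⟩
    have eran : ∀ s : G, Set.range f = {s}ᶜ ↔ (univ.image f : Finset G) = univ.erase s := by
      intro s
      constructor
      · intro h
        ext g
        rw [mem_erase]
        constructor
        · intro hg
          obtain ⟨x, -, hx⟩ := Finset.mem_image.1 hg
          have : g ∈ Set.range f := ⟨x, hx⟩
          rw [h] at this
          exact ⟨this, mem_univ _⟩
        · rintro ⟨hg, -⟩
          have : g ∈ Set.range f := by rw [h]; exact hg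
          obtain ⟨x, hx⟩ := this
          rw [← hx]
          exact Finset.mem_image_of_mem _ (mem_univ _)
      · intro h
        ext g
        constructor
        · rintro ⟨x, rfl⟩
          have : f x ∈ (univ.image f : Finset G) := Finset.mem_image_of_mem _ (mem_univ _)
          rw [h, mem_erase] at this
          exact this.1
        · intro hg
          have : g ∈ (univ.image f : Finset G) := by
            rw [h, mem_erase]
            exact ⟨hg, mem_univ _⟩
          obtain ⟨x, -, hx⟩ := Finset.mem_image.1 this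
          exact ⟨x, hx⟩
    constructor
    · intro h
      have hinj := label_injective hr hrq hq h
      have hcard : (univ.image f : Finset G).card = Fintype.card X := by
        rw [Finset.card_image_of_injective _ hinj, Finset.card_univ]
      have hle : Fintype.card X ≤ Fintype.card G := Fintype.card_le_of_injective f hinj
      have h2q := two_q_le hr hrq hq h
      have hV : Fintype.card G + 2 * q ≤ 2 * (univ.image f : Finset G).card := by
        rw [hcard]
        rcases hd with hd | hd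
        · omega
        · exact hd
      rcases stV_class hr hrq (by rw [hcard]; exact hq) hV ((stV_iff hinj).1 h) with
        ⟨h1, h2, h3, h4, h5⟩ | ⟨h1, h2, h3, s, h4, h5⟩ | ⟨h1, h2, h3, h4, h5⟩
      · exact Or.inl ⟨h1, h2, ⟨hinj, esurj.2 h3⟩, e3.2 h4, (hS0 0).2 h5⟩
      · exact Or.inr (Or.inl ⟨h1, h2, hinj, e2.2 h3, s, (hS0 s).2 h4, (eran s).2 h5⟩)
      · exact Or.inr (Or.inr ⟨h1, h2, ⟨hinj, esurj.2 h3⟩, e2.2 h4, (hS0 0).2 h5⟩)
    · rintro (⟨rfl, rfl, h3, h4, h5⟩ | ⟨rfl, rfl, h3, h4, s, h5, h6⟩ | ⟨rfl, rfl, h3, h4, h5⟩)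
      · rw [stV_iff h3.1, esurj.1 h3.2, (hS0 0).1 h5]
        exact conv_a (e3.1 h4)
      · rw [stV_iff h3, (eran s).1 h6, (hS0 s).1 h5]
        exact conv_b (e2.1 h4) s
      · rw [stV_iff h3.1, esurj.1 h3.2, (hS0 0).1 h5]
        exact conv_c (e2.1 h4)
  refine ⟨hst.trans main, fun h => ?_⟩
  have hp3 : Fact (Nat.Prime 3) := ⟨Nat.prime_three⟩
  have hp2 : Fact (Nat.Prime 2) := ⟨Nat.prime_two⟩
  rcases main.1 (hst.1 h) with ⟨h1, h2, h3, h4, h5⟩ | ⟨h1, h2, h3, h4, s, h5, h6⟩ |
    ⟨h1, h2, h3, h4, h5⟩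
  · obtain ⟨m, hm⟩ := card_pow 3 h4
    exact ⟨m, Or.inl ⟨h1, h2, by rw [← hm]; exact Fintype.card_of_bijective h3⟩⟩
  · obtain ⟨m, hm⟩ := card_pow 2 h4
    refine ⟨m, Or.inr (Or.inl ⟨h1, h2, ?_⟩)⟩
    have e1 : (univ.image f : Finset G) = univ.erase s := by
      ext g
      rw [mem_erase]
      constructor
      · intro hg
        obtain ⟨x, -, hx⟩ := Finset.mem_image.1 hg
        have : g ∈ Set.range f := ⟨x, hx⟩
        rw [h6] at this
        exact ⟨this, mem_univ _⟩
      · rintro ⟨hg, -⟩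
        have : g ∈ Set.range f := by rw [h6]; exact hg
        obtain ⟨x, hx⟩ := this
        rw [← hx]
        exact Finset.mem_image_of_mem _ (mem_univ _)
    rw [← hm, ← Finset.card_univ (α := X), ← Finset.card_image_of_injective _ h3, e1,
      Finset.card_erase_of_mem (mem_univ _), Finset.card_univ]
  · obtain ⟨m, hm⟩ := card_pow 2 h4
    exact ⟨m, Or.inr (Or.inr ⟨h1, h2, by rw [← hm]; exact Fintype.card_of_bijective h3⟩)⟩

end Pool.Agent.Results.MP_409a13_co.SumSteiner
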